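import Pool.Agent.U722.FF.Fin2

/-!
# Groups of type FP and FF: two-by-two matrices over `ℤ[x_1, ..., x_n]`

Serre asked whether every group of type FP is of type FF. We prove, without any hypothesis:

(1) every group of type FP which is isomorphic to a subgroup of `GL_2(ℤ[x_1, ..., x_n])` is of type
FF;

(2) indeed every finitely generated torsion-free subgroup of `GL_2(ℤ[x_1, ..., x_n])` is of type FF;

(3) every subgroup of `GL_2(ℤ[x_1, ..., x_n])` has a normal subgroup of index dividing 48 all of whose
finitely generated subgroups are of type FF;

(4) let a group `G` act on a tree without inversions; if all finitely generated subgroups of the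
stabilizers of the vertices are of type FF and all subgroups of the stabilizers of the edges are
finitely generated, then all finitely generated subgroups of `G` are of type FF.

Outline. (4): a finitely generated `G` acts cocompactly on a subtree; the exact sequence
`0 → ℤE → ℤV → ℤ → 0` and the finiteness properties of the edge groups show that the vertex groups are
finitely generated, hence of type FF, and then `ℤ` has a finite free resolution over `ℤG` (splicing
of resolutions). (2): let `v` be the valuation `- deg` of the field of fractions of
`R = ℤ[x_1, ..., x_n]` (total degree) and consider the tree of `SL_2`. An element of a stabilizer of a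
vertex has powers of bounded degree, so its trace is an integer. If it fixes an edge then its
characteristic polynomial has a zero in the residue field of `v`; comparing forms of highest degree it
has a zero in `ℤ`, that is `1` or `-1`. So a torsion-free stabilizer of an edge consists of matrices
`± (1 + N)` with `N ^ 2 = 0`; it is commutative and, its degrees being bounded, finitely generated. If
the evaluation at the origin is injective on the stabilizer of a vertex, then this is a subgroup of
`GL_2(ℤ)`; otherwise it contains a unipotent element, all its elements have the fixed line of this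
element as an eigenspace, the eigenvalues are again `± 1`, and the stabilizer is commutative. Finitely
generated torsion-free subgroups of `GL_2(ℤ)` act freely on the tree of the superbases of `ℤ^2`, finitely
generated free abelian groups act on lines. (1): groups of type FP are finitely generated and
torsion-free. (3): the kernel of `G → GL_2(ℤ/3)`, `x_i ↦ 0`, is torsion-free.
-/

set_option autoImplicit false

namespace Pool.Agent.Results.MP_d19827_al.PolynomialMatrixGroups

open MvPolynomial

/-- `G` is of type FP: there is an exact sequence `0 → P_n → ... → P_0 → ℤ → 0` of `ℤG`-modules with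
finitely generated projective modules `P_i` -/
def TypeFP (G : Type) [Group G] : Prop :=
  ∃ (n : ℕ) (P : ℕ → Type) (_ : ∀ i, AddCommGroup (P i)) (_ : ∀ i, Module (MonoidAlgebra ℤ G) (P i))
    (d : ∀ i, P (i + 1) →ₗ[MonoidAlgebra ℤ G] P i) (ε : P 0 →+ ℤ),
    (∀ i, Module.Finite (MonoidAlgebra ℤ G) (P i)) ∧
    (∀ i, Module.Projective (MonoidAlgebra ℤ G) (P i)) ∧
    (∀ i, n < i → Subsingleton (P i)) ∧
    (∀ (g : G) (x : P 0), ε (MonoidAlgebra.of ℤ G g • x) = ε x) ∧
    Function.Surjective ε ∧
    (∀ x : P 0, ε x = 0 ↔ x ∈ LinearMap.range (d 0)) ∧
    (∀ i, LinearMap.range (d (i + 1)) = LinearMap.ker (d i))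

/-- `G` is of type FF: the same with finitely generated free modules (`TH57.FF.FFle G n`: of length at
most `n`) -/
def TypeFF (G : Type) [Group G] : Prop := ∃ n, TH57.FF.FFle G n

/-- every finitely generated subgroup is of type FF -/
def LocallyFF (G : Type) [Group G] : Prop := ∀ H : Subgroup G, Group.FG H → TypeFF H

/-- every subgroup is finitely generated -/
def Slender (G : Type) [Group G] : Prop := ∀ H : Subgroup G, Group.FG H

/-- only the unit element has finite order -/
def TorsionFree (G : Type) [Group G] : Prop := ∀ g : G, ∀ k : ℕ, 0 < k → g ^ k = 1 → g = 1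

theorem fpres {G : Type} [Group G] (h : TypeFP G) : U722.FF.FPres G := by
  obtain ⟨n, P, i1, i2, d, ε, h1, h2, h3, h4, h5, h6, h7⟩ := h
  exact ⟨n, fun i => ModuleCat.of (MonoidAlgebra ℤ G) (P i), d, ε, h2, h1, h3, h4, h5, h6,
    fun i => (h7 i).symm⟩

/-- Let `R = ℤ[x_1, ..., x_n]` and let `G` be isomorphic to a subgroup of `GL_2(R)`. (1) If `G` is of type
FP then it is of type FF. (2) If `G` is torsion-free then all its finitely generated subgroups are of
type FF. (3) `G` has a normal subgroup of finite index dividing 48 all of whose finitely generated
subgroups are of type FF. (4) If a group acts on a tree without inversions, the stabilizers of the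
vertices being `LocallyFF` and those of the edges `Slender`, then it is `LocallyFF`. -/
theorem result :
    (∀ (n : ℕ) (G : Type) [Group G] (ρ : G →* GL (Fin 2) (MvPolynomial (Fin n) ℤ)),
      Function.Injective ρ →
      (TypeFP G → TypeFF G) ∧ (TorsionFree G → LocallyFF G) ∧
      ∃ N : Subgroup G, N.Normal ∧ N.index ≠ 0 ∧ N.index ∣ 48 ∧ LocallyFF N) ∧
    ∀ (G V : Type) [Group G] [MulAction G V] (T : SimpleGraph V), T.IsTree →
      (∀ (g : G) (u v : V), T.Adj u v → T.Adj (g • u) (g • v)) →
      (∀ (g : G) (u v : V), T.Adj u v → g • u = v → g • v ≠ u) →
      (∀ v : V, LocallyFF ↥(MulAction.stabilizer G v)) →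
      (∀ u v : V, T.Adj u v → Slender ↥(MulAction.stabilizer G u ⊓ MulAction.stabilizer G v)) →
      LocallyFF G := by
  have key : ∀ (n : ℕ) (G : Type) [Group G] (ρ : G →* GL (Fin 2) (MvPolynomial (Fin n) ℤ)),
      Function.Injective ρ → TorsionFree G → LocallyFF G := by
    intro n G _ ρ hρ hnt H hH
    exact U722.FF.FF H (U722.FF.LIN n H (ρ.comp H.subtype) (hρ.comp H.subtype_injective)
      (U722.FF.NoTor_le H.subtype H.subtype_injective hnt) hH)
  refine ⟨fun n G _ ρ hρ => ⟨fun h => ?_, key n G ρ hρ, ?_⟩, ?_⟩
  · exact U722.FF.FF G (U722.FF.LIN n G ρ hρ (U722.FF.NOTOR G (fpres h)) (U722.FF.FPFG G (fpres h)))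
  · obtain ⟨N, h1, h2, h3, h4⟩ := U722.FF.VIR n G ρ hρ
    exact ⟨N, h1, h2, h3, key n N (ρ.comp N.subtype) (hρ.comp N.subtype_injective) h4⟩
  · intro G V _ _ T hT hact hinv hv he H hH
    refine U722.FF.FF H ?_
    have hconv : ∀ (K L : Type) [Group K] [Group L] (j : K →* L), Function.Injective j →
        Group.FG K → LocallyFF L → U722.FF.TF K := by
      intro K L _ _ j hj hK hL
      have e : K ≃* j.range := MonoidHom.ofInjective hj
      have h1 : Group.FG j.range := by
        have := hK
        exact Group.fg_of_surjective (f := e.toMonoidHom) e.surjective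
      exact U722.FF.ISO _ _ e.symm (U722.FF.CONV _ (hL _ h1))
    refine U722.FF.TT H V T hH hT (fun g u v h => hact g.1 u v h)
      (fun g u v h => hinv g.1 u v h) ?_ ?_
    · intro u v huv
      let j : ↥(MulAction.stabilizer H u ⊓ MulAction.stabilizer H v) →*
          ↥(MulAction.stabilizer G u ⊓ MulAction.stabilizer G v) :=
        (H.subtype.comp (Subgroup.subtype _)).codRestrict _ (fun x => ⟨x.2.1, x.2.2⟩)
      have hj : Function.Injective j := by
        intro a b hab
        have h1 := congrArg Subtype.val hab
        exact Subtype.ext (Subtype.ext h1)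
      have hfg : Group.FG ↥(MulAction.stabilizer H u ⊓ MulAction.stabilizer H v) := by
        have h1 : Group.FG j.range := he u v huv _
        have e := MonoidHom.ofInjective hj
        exact Group.fg_of_surjective (f := e.symm.toMonoidHom) e.symm.surjective
      refine ⟨?_, hfg⟩
      let j2 : ↥(MulAction.stabilizer H u ⊓ MulAction.stabilizer H v) →*
          ↥(MulAction.stabilizer G u) :=
        (H.subtype.comp (Subgroup.subtype _)).codRestrict _ (fun x => x.2.1)
      have hj2 : Function.Injective j2 := by
        intro a b hab
        have h1 := congrArg Subtype.val hab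
        exact Subtype.ext (Subtype.ext h1)
      exact hconv _ _ j2 hj2 hfg (hv u)
    · intro v hfg
      let j2 : ↥(MulAction.stabilizer H v) →* ↥(MulAction.stabilizer G v) :=
        (H.subtype.comp (Subgroup.subtype _)).codRestrict _ (fun x => x.2)
      have hj2 : Function.Injective j2 := by
        intro a b hab
        have h1 := congrArg Subtype.val hab
        exact Subtype.ext (Subtype.ext h1)
      exact hconv _ _ j2 hj2 hfg (hv v)

end Pool.Agent.Results.MP_d19827_al.PolynomialMatrixGroups
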