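import Pool.Agent.U731.SG.Bdry

set_option autoImplicit false
set_option linter.unusedSectionVars false
set_option linter.style.haveILetI false

/-! Groups of type FP and FF: boundary matrices supported in parts of hermitian matrices with spectrum
in an interval of length `3 √2`.

A torsion-free group with a partial free resolution one of whose boundary matrices is supported in a
part of a hermitian complex matrix with coefficients of absolute value at least one and with spectrum in
an interval of length at most `3 √2` (bound included) is of type FF; the resolution is shorter if the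
length of the interval is less than `4`. For every larger bound all boundary matrices over all groups can
be replaced by such matrices with coefficients `0`, `1`, `-1`. -/

namespace Pool.Agent.Results.MP_d19827_al.SpanBoundary

open ComplexConjugate Matrix TH57.FF

/-- `G` is torsion-free. -/
def TorsionFree (G : Type) [Group G] : Prop := ∀ g : G, IsOfFinOrder g → g = 1

/-- All coefficients are `0`, `1` or `-1`. -/
def Small {G : Type} {m k : ℕ} (A : Matrix (Fin m) (Fin k) (MonoidAlgebra ℤ G)) : Prop :=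
  ∀ i j g, (A i j).coeff g = 0 ∨ (A i j).coeff g = 1 ∨ (A i j).coeff g = -1

/-- The values of `⟨xS, x⟩` on the unit vectors `x` of `ℓ²(G)^V` with finite support `T` lie in an
interval `[c, c + s]`; for hermitian `S` this says that the spectrum of right multiplication by `S`
lies in it. -/
def SpanLE {G : Type} [Group G] {V : Type} (S : Matrix V V (MonoidAlgebra ℂ G)) (s : ℝ) : Prop :=
  ∃ c : ℝ, ∀ (T : Finset (V × G)) (x : V × G → ℂ),
    c * ∑ p ∈ T, ‖x p‖ ^ 2
      ≤ (∑ p ∈ T, ∑ q ∈ T, x p * (S p.1 q.1).coeff (p.2⁻¹ * q.2) * conj (x q)).re ∧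
    (∑ p ∈ T, ∑ q ∈ T, x p * (S p.1 q.1).coeff (p.2⁻¹ * q.2) * conj (x q)).re
      ≤ (c + s) * ∑ p ∈ T, ‖x p‖ ^ 2

/-- There are a hermitian complex matrix `S`, indexed by a finite set `V`, whose nonzero coefficients,
except those of the identity on the diagonal, have absolute value at least one and whose spectrum lies in
an interval of length `s`, and maps `a`, `b` of the row and column indices of `A` to `V`, such that the
entry `A i j` is supported in the support of the entry `S (a i) (b j)`, and in addition in the identity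
if `a i = b j`. -/
def SupportSpanLE {G : Type} [Group G] {m k : ℕ} (A : Matrix (Fin m) (Fin k) (MonoidAlgebra ℤ G))
    (s : ℝ) : Prop :=
  ∃ (V : Type) (_ : Finite V) (S : Matrix V V (MonoidAlgebra ℂ G)) (a : Fin m → V) (b : Fin k → V),
    (∀ v w g, (S w v).coeff g⁻¹ = conj ((S v w).coeff g)) ∧
    (∀ v w g, (S v w).coeff g ≠ 0 → (v = w ∧ g = 1) ∨ 1 ≤ ‖(S v w).coeff g‖) ∧
    (∀ i j g, (A i j).coeff g ≠ 0 → (a i = b j ∧ g = 1) ∨ (S (a i) (b j)).coeff g ≠ 0) ∧
    SpanLE S s

/-- a pattern of norm at most `c` has support span at most `2 c` -/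
theorem span_of_pat {G : Type} [Group G] {m k : ℕ} (A : Matrix (Fin m) (Fin k) (MonoidAlgebra ℤ G))
    (c : ℝ) (hc : 0 < c) (hA : TH57.Thr.NormLE (TH6.PF.pat A) c) : SupportSpanLE A (2 * c) := by
  classical
  set P := TH6.PF.pat A with hP
  let Q : Matrix (Fin m ⊕ Fin k) (Fin m ⊕ Fin k) (MonoidAlgebra ℤ G) := fromBlocks 0 P 0 0
    + TH6.LF.adj (fromBlocks 0 P 0 0)
  have hQ0 : ∀ i j g, (Q i j).coeff g = ((fromBlocks 0 P 0 0 : Matrix (Fin m ⊕ Fin k)
      (Fin m ⊕ Fin k) (MonoidAlgebra ℤ G)) i j).coeff g + ((fromBlocks 0 P 0 0 :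
        Matrix (Fin m ⊕ Fin k) (Fin m ⊕ Fin k) (MonoidAlgebra ℤ G)) j i).coeff g⁻¹ := by
    intro i j g
    change ((fromBlocks 0 P 0 0 : Matrix (Fin m ⊕ Fin k) (Fin m ⊕ Fin k) (MonoidAlgebra ℤ G)) i j
      + TH6.LF.adj (fromBlocks 0 P 0 0) i j).coeff g = _
    rw [MonoidAlgebra.coeff_add, Finsupp.add_apply, TH6.LF.coeff_adj]
  have hN : TH57.Thr.NormLE Q c := by
    refine TH6.CX.norm_sym _ ?_ c hc (U731.SG.normLE_corner' P c hA)
    rw [Matrix.fromBlocks_multiply]
    simp
  have hsp := U731.SP.span_of_norm Q c hc hN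
  refine ⟨Fin m ⊕ Fin k, inferInstance, U731.SG.cxM Q, Sum.inl, Sum.inr, ?_, ?_, ?_,
    U731.SG.spanK_of_int Q _ hsp⟩
  · intro i j h
    rw [U731.SG.cxM_coeff, U731.SG.cxM_coeff, hQ0, hQ0, inv_inv, add_comm]
    simp
  · intro i j h hne
    right
    rw [U731.SG.cxM_coeff] at hne ⊢
    have h1 : (Q i j).coeff h ≠ 0 := by exact_mod_cast hne
    have h2 : (1 : ℤ) ≤ |(Q i j).coeff h| := Int.one_le_abs h1
    rw [Complex.norm_intCast]
    exact_mod_cast h2
  · intro i j h hne
    right
    rw [U731.SG.cxM_coeff, hQ0]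
    have h1 := (TH6.PF.pat_ne A i j h).2 hne
    simpa using h1

/-- `Bd G n A` (from `Pool.Agent.TH57.FF.BdDefs`): `A` is the matrix of `F_{n+1} → F_n` in an exact
sequence `F_{n+1} → F_n → ... → F_0 → ℤ → 0` of `ℤG`-modules in which all `F_i` are free with finite
bases; for instance such sequences exist for all `n` if `G` is of type FP. `FFle G n`: the trivial module
`ℤ` has a resolution of length at most `n` by finitely generated free modules.
1. If `G` is torsion-free and the matrix of `F_{n+1} → F_n` has support span at most `3 √2` for some `n`,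
   then `ℤ` has a resolution of length at most `n + 3` by finitely generated free modules, and one of
   length at most `n + 1` if the support span is less than `4`.
2. Let `s > 3 √2`. For every group `G` with an exact sequence as above there is one (with the same `n`)
   in which the last matrix has coefficients `0`, `1`, `-1` and support span at most `s`.
3. So for `s > 3 √2`, every class `𝒞` of groups and all `n`, `N` the following are equivalent: all
   torsion-free groups in `𝒞` with an exact sequence as above have a free resolution of length at most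
   `N`; the same for those with such a last matrix. -/
theorem result :
    (∀ (G : Type) [Group G], TorsionFree G → ∀ (n m k : ℕ)
      (A : Matrix (Fin m) (Fin k) (MonoidAlgebra ℤ G)), Bd G n A → ∀ s : ℝ, SupportSpanLE A s →
      (s ^ 2 ≤ 18 → FFle G (n + 3)) ∧ (s < 4 → FFle G (n + 1))) ∧
    (∀ (G : Type) [Group G] (n m k : ℕ) (A : Matrix (Fin m) (Fin k) (MonoidAlgebra ℤ G)),
      Bd G n A → ∀ s : ℝ, 0 < s → 18 < s ^ 2 →
      ∃ (m' k' : ℕ) (A' : Matrix (Fin m') (Fin k') (MonoidAlgebra ℤ G)),
        Bd G n A' ∧ Small A' ∧ SupportSpanLE A' s) ∧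
    (∀ (𝒞 : ∀ (G : Type) [Group G], Prop) (n N : ℕ) (s : ℝ), 0 < s → 18 < s ^ 2 →
      ((∀ (G : Type) [Group G], 𝒞 G → TorsionFree G →
          (∃ (m k : ℕ) (A : Matrix (Fin m) (Fin k) (MonoidAlgebra ℤ G)), Bd G n A) → FFle G N) ↔
        (∀ (G : Type) [Group G], 𝒞 G → TorsionFree G →
          (∃ (m k : ℕ) (A : Matrix (Fin m) (Fin k) (MonoidAlgebra ℤ G)),
            Bd G n A ∧ Small A ∧ SupportSpanLE A s) → FFle G N))) := by
  classical
  have hred : ∀ (G : Type) [Group G] (n m k : ℕ) (A : Matrix (Fin m) (Fin k) (MonoidAlgebra ℤ G)),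
      Bd G n A → ∀ s : ℝ, 0 < s → 18 < s ^ 2 →
      ∃ (m' k' : ℕ) (A' : Matrix (Fin m') (Fin k') (MonoidAlgebra ℤ G)),
        Bd G n A' ∧ Small A' ∧ SupportSpanLE A' s := by
    intro G _ n m k A hA s hs0 hs
    obtain ⟨m', k', A', h1, h2, h3⟩ := Pool.Agent.N510.CT.sBd_red n A hA (s / 2)
      (by rw [div_pow]; linarith)
    have h4 := span_of_pat A' (s / 2) (by positivity) h3
    rw [mul_div_cancel₀ s two_ne_zero] at h4
    exact ⟨m', k', A', h1, h2, h4⟩
  refine ⟨?_, hred, ?_⟩
  · intro G _ htf n m k A hA s hsp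
    have htf' : ∀ g : G, ∀ k : ℕ, 0 < k → g ^ k = 1 → g = 1 := fun g k hk h =>
      htf g (isOfFinOrder_iff_pow_eq_one.2 ⟨k, hk, h⟩)
    obtain ⟨V, hV, S, a, b, h1, h2, h3, h4⟩ := hsp
    haveI : Fintype V := Fintype.ofFinite V
    have hS : U731.SG.SmallSpan S s := ⟨S, h1, h2, fun i j g h => Or.inr h, h4⟩
    have tr : ∀ (ρ : V → V) (u : V → G) (C : V → Subgroup G),
        (∀ i j g, (S i j).coeff g ≠ 0 → ρ i = ρ j ∧ u i * g * (u j)⁻¹ ∈ C (ρ i)) →
        ∀ i j g, (A i j).coeff g ≠ 0 → ρ (a i) = ρ (b j) ∧ u (a i) * g * (u (b j))⁻¹ ∈ C (ρ (a i)) := by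
      intro ρ u C hst i j g hg
      rcases h3 i j g hg with ⟨h5, h6⟩ | h5
      · subst h6
        rw [h5]
        refine ⟨rfl, ?_⟩
        rw [mul_one, mul_inv_cancel]
        exact one_mem _
      · exact hst _ _ g h5
    constructor
    · intro hs
      obtain ⟨ρ, u, C, hC, hst⟩ := U731.SG.smallSpan_vc s hs S hS
      have hcyc : ∀ v, IsCyclic (C v) := by
        intro v
        obtain ⟨z, hz⟩ := hC v
        exact TH6.LF.isCyclic_of_finiteIndex (fun x k hk hx => Subtype.ext
          (htf' x.1 k hk (by simpa using congrArg Subtype.val hx))) (Subgroup.zpowers z)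
          inferInstance hz
      have hR := U731.SG.Res_of_pat htf' A (fun i => ρ (a i)) (fun j => ρ (b j)) (fun i => u (a i))
        (fun j => u (b j)) C hcyc (tr ρ u C hst)
      have h5 := FFle_of_FR n A hA 2 (FR_of_Res 2 A hR)
      have h6 : 2 + n + 1 = n + 3 := by ring
      rwa [h6] at h5
    · intro hs
      obtain ⟨ρ, u, C, hC, hst⟩ := U731.SG.smallSpan_fin s hs S hS
      have hR := U731.SG.free_of_pat htf' A (fun i => ρ (a i)) (fun j => ρ (b j))
        (fun i => u (a i)) (fun j => u (b j)) C hC (tr ρ u C hst)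
      have h5 := FFle_of_FR n A hA 0 hR
      have h6 : 0 + n + 1 = n + 1 := by ring
      rwa [h6] at h5
  · intro 𝒞 n N s hs0 hs
    constructor
    · intro h G _ h1 h2 ⟨m, k, A, h3, _⟩
      exact h G h1 h2 ⟨m, k, A, h3⟩
    · intro h G _ h1 h2 ⟨m, k, A, h3⟩
      obtain ⟨m', k', A', h4, h5⟩ := hred G n m k A h3 s hs0 hs
      exact h G h1 h2 ⟨m', k', A', h4, h5⟩

end Pool.Agent.Results.MP_d19827_al.SpanBoundary
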