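import Pool.Agent.U293.FX.Fin
import Pool.Agent.U187.FSP.NOTOR
import Pool.Agent.U908.FSP.FPFG

/-!
# Groups of type FP and FF: automorphisms of `ℤ[x, y]`

Serre asked whether every group of type FP is of type FF. We prove, without any hypothesis, for every
group `G` which is isomorphic to a subgroup of the automorphism group of the ring `ℤ[x, y]`:

(1) if `G` is of type FP then it is of type FF;

(2) indeed, if `G` is torsion-free then all its finitely generated subgroups are of type FF.

(The group contains `GL_2(ℤ)` and finitely generated torsion-free nilpotent groups of every class.)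

Outline. By Jung's theorem `Aut ℚ[x, y]` is the amalgam of the affine and of the triangular group, so `G`
acts on the tree of this amalgam, without inversions.
* A subgroup `H` of `G` which fixes a vertex of affine type `g A` maps the lattice of all integral
  polynomials in the span of `1, g(x), g(y)` to itself. So there is a homomorphism `H → GL_2(ℤ)` whose kernel
  embeds in `ℤ ^ 2`. If `H` is torsion-free and finitely generated, let it act on the tree of `GL_2(ℤ)`
  (whose vertices are the forms equivalent to `x ^ 2 + x y + y ^ 2`). An element of a stabilizer has an image
  of finite order in `GL_2(ℤ)`; if this has determinant `1` and is not trivial then `1` is not an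
  eigenvalue, and the element has finite order. So the stabilizers have finitely generated abelian
  subgroups of index at most two.
* A subgroup which fixes a vertex of triangular type `g B` acts by `Y ↦ ± Y + c` on a generator `Y` of the
  integral polynomials in the span of `1, g(y)`, that is through the infinite dihedral group, and also
  the factor of `g(x)` is `± 1`; the kernel is abelian. If the subgroup is finitely generated, or if it also
  fixes an adjacent vertex of affine type, then the degrees of its elements `g(x) ↦ ± g(x) + p(g(y))` are
  bounded, and it is polycyclic.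
* Torsion-free groups with a finitely generated abelian subgroup of index two are of type FF by means of
  the transfer, torsion-free extensions of subgroups of the infinite dihedral group by finitely
  generated abelian groups by means of the action on the line.
* The theorem on groups acting on trees (project FF, see `PolynomialMatrixGroups` in this folder): a
  finitely generated group is of type FF if it acts on a tree without inversions, the stabilizers of the
  edges are finitely generated and of type FF, and those stabilizers of vertices which are finitely
  generated are of type FF.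
-/

set_option autoImplicit false

namespace Pool.Agent.Results.MP_d19827_al.TorsionFreeAutomorphisms

/-- `G` is of type FP: there is an exact sequence `0 → P_n → ... → P_0 → ℤ → 0` of `ℤG`-modules with
finitely generated projective modules `P_i` -/
def TypeFP (G : Type) [Group G] : Prop :=
  ∃ (n : ℕ) (P : ℕ → Type) (_ : ∀ i, AddCommGroup (P i)) (_ : ∀ i, Module (MonoidAlgebra ℤ G) (P i))
    (d : ∀ i, P (i + 1) →ₗ[MonoidAlgebra ℤ G] P i) (ε : P 0 →+ ℤ),
    (∀ i, Module.Finite (MonoidAlgebra ℤ G) (P i)) ∧
    (∀ i, Module.Projective (MonoidAlgebra ℤ G) (P i)) ∧
    (∀ i, n < i → Subsingleton (P i)) ∧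
    (∀ (g : G) (x : P 0), ε (MonoidAlgebra.of ℤ G g • x) = ε x) ∧
    Function.Surjective ε ∧
    (∀ x : P 0, ε x = 0 ↔ x ∈ LinearMap.range (d 0)) ∧
    (∀ i, LinearMap.range (d (i + 1)) = LinearMap.ker (d i))

/-- `G` is of type FF: the same with finitely generated free modules (`TH57.FF.FFle G n`: of length at
most `n`) -/
def TypeFF (G : Type) [Group G] : Prop := ∃ n, TH57.FF.FFle G n

/-- every finitely generated subgroup is of type FF -/
def LocallyFF (G : Type) [Group G] : Prop := ∀ H : Subgroup G, Group.FG H → TypeFF H

/-- only the unit element has finite order -/
def TorsionFree (G : Type) [Group G] : Prop := ∀ g : G, ∀ k : ℕ, 0 < k → g ^ k = 1 → g = 1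

theorem fpres {G : Type} [Group G] (h : TypeFP G) : U722.FF.FPres G := by
  obtain ⟨n, P, i1, i2, d, ε, h1, h2, h3, h4, h5, h6, h7⟩ := h
  exact ⟨n, fun i => ModuleCat.of (MonoidAlgebra ℤ G) (P i), d, ε, h2, h1, h3, h4, h5, h6,
    fun i => (h7 i).symm⟩

/-- Let `G` be isomorphic to a subgroup of the group of automorphisms of `ℤ[x, y]`. If `G` is of type FP
then it is of type FF. If `G` is torsion-free then all its finitely generated subgroups are of
type FF. -/
theorem result : ∀ (G : Type) [Group G]
    (ρ : G →* (MvPolynomial (Fin 2) ℤ ≃ₐ[ℤ] MvPolynomial (Fin 2) ℤ)), Function.Injective ρ →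
    (TypeFP G → TypeFF G) ∧ (TorsionFree G → LocallyFF G) := by
  intro G _ ρ hρ
  refine ⟨fun h => ?_, fun hnt H hH => ?_⟩
  · exact U722.FF.FF G (Pool.Agent.U293.FX.final G ρ hρ (U187.FSP.t_NOTOR G (fpres h))
      (Pool.Agent.U908.FSP.t_FPFG G (fpres h)))
  · exact U722.FF.FF H (Pool.Agent.U293.FX.final H (ρ.comp H.subtype)
      (hρ.comp H.subtype_injective) (U722.FF.NoTor_le H.subtype H.subtype_injective hnt) hH)

end Pool.Agent.Results.MP_d19827_al.TorsionFreeAutomorphisms
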