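import Pool.Agent.U674.FP.Len

/-!
# Serre's problem on groups of type FP and FF and left ideals generated by trinomials

A projective syzygy of the trivial module over the group ring of a group `G` of type FP is, after an
extension of scalars to the group ring of `G * F_m`, `F_m` a free group, and after adding a free module,
isomorphic to a left ideal generated by finitely many elements `1 + a + b`, `a, b ∈ G * F_m`; and this
left ideal is again a syzygy of the trivial module, of the same order, over the group ring of `G * F_m`.
So Serre's problem is the question whether the projective left ideals generated by trinomials which are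
syzygies of the trivial module are stably free, for each bound (at least three) on the dimension.

Proof. (1) The kernel of a partial free resolution of `ℤ` over `ℤG` which is long enough is projective,
and stably free if and only if `G` is of type FF (Schanuel's lemma). (2) By
`Pool.Agent.U674.TI.Iso` (`MP_551055_al.TrinomialIdeals`) its extension of scalars to
`ℤ[G * F_m]` is isomorphic to a left ideal generated by trinomials, after adding a free module.
(3) A partial free resolution over `ℤG` gives one over `ℤ[Γ]`, `Γ = G * F_m`: `ℤΓ` is a free right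
`ℤG`-module, so the boundary matrices from `F_3 → F_2` on do not change, and one has to add `m` rows
`(y_j - 1) x₀` to the matrix of `F_1 → F_0`, where the `y_j` are the free generators and the
augmentation of `x₀ ∈ F_0` is `1`. Fox derivatives `∂ / ∂ y_j : ℤΓ → ℤΓ` which vanish on `G` show that
there are no new relations between these rows.
-/

set_option autoImplicit false

namespace Pool.Agent.Results.MP_d19827_al.TrinomialSyzygies

open TH57.FF Pool.Agent.U674.TI Pool.Agent.U674.FP

/-- `Bd G n A` (from `Pool.Agent.TH57.FF.BdDefs`): `A` is the matrix of `F_{n+1} → F_n` in an exact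
sequence `F_{n+1} → F_n → ... → F_0 → ℤ → 0` of `ℤG`-modules in which all `F_i` are free with finite
bases. `TrinomialSyzygiesSF Γ n`: the projective left ideals of `ℤΓ` which are generated by finitely many
elements `1 + a + b`, `a, b ∈ Γ`, and are isomorphic to the kernel of the map `F_n → F_{n-1}` of such a
sequence (the image of `F_{n+1} → F_n`), are stably free. -/
def TrinomialSyzygiesSF (Γ : Type) [Group Γ] (n : ℕ) : Prop :=
  ∀ (p q r : ℕ) (A : Matrix (Fin p) (Fin q) (MonoidAlgebra ℤ Γ)) (a b : Fin r → Γ), Bd Γ n A →
    Nonempty (↥(triIdeal a b) ≃ₗ[MonoidAlgebra ℤ Γ] Im A) →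
    Module.Projective (MonoidAlgebra ℤ Γ) (triIdeal a b) → SF (MonoidAlgebra ℤ Γ) (triIdeal a b)

/-- `FPLen G n`, `FFle G n`: the trivial module `ℤ` has a resolution of length at most `n` by finitely
generated projective, respectively free, `ℤG`-modules. `FPType G`, `FFType G`: the same with some `n`
(the group is of type FP, FF). `GF G (Fin m)` is the free product `G * F_m` of `G` and a free group of
rank `m`, `SF` means stably free (the direct sum with a free module of finite rank is free of finite
rank).
1. Let `n ≥ 0` and let `G` be a group with a resolution of `ℤ` of length at most `n + 3` by finitely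
   generated projective `ℤG`-modules. There are a number `m`, an exact sequence
   `F_{n+3} → F_{n+2} → ... → F_0 → ℤ → 0` over the group ring of `Γ = G * F_m`, all `F_i` free with finite
   bases, and finitely many `a i, b i ∈ Γ` such that the left ideal of `ℤΓ` generated by the elements
   `1 + a i + b i` is projective and isomorphic to the image of `F_{n+3} → F_{n+2}`, and the following are
   equivalent: `G` is of type FF; `ℤ` has a free resolution of length at most `n + 3` over `ℤG`; `Γ` is of
   type FF; this left ideal is stably free.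
2. For each `n ≥ 0` the following are equivalent: all groups with a resolution of `ℤ` of length at most
   `n + 3` by finitely generated projective modules are of type FF; `TrinomialSyzygiesSF Γ (n + 2)` for
   all groups `Γ`.
3. All groups of type FP are of type FF (Serre's problem) if and only if `TrinomialSyzygiesSF Γ n` for all
   groups `Γ` and all `n`. -/
theorem result :
    (∀ (n : ℕ) (G : Type) [Group G], FPLen G (n + 3) → ∃ (m p q r : ℕ)
      (A : Matrix (Fin p) (Fin q) (RR G (Fin m))) (a b : Fin r → GF G (Fin m)),
      Bd (GF G (Fin m)) (n + 2) A ∧ Nonempty (↥(triIdeal a b) ≃ₗ[RR G (Fin m)] Im A) ∧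
      Module.Projective (RR G (Fin m)) (triIdeal a b) ∧
      List.TFAE [FFType G, FFle G (n + 3), FFType (GF G (Fin m)),
        SF (RR G (Fin m)) (triIdeal a b)]) ∧
    (∀ n : ℕ, (∀ (G : Type) [Group G], FPLen G (n + 3) → FFType G) ↔
      ∀ (Γ : Type) [Group Γ], TrinomialSyzygiesSF Γ (n + 2)) ∧
    ((∀ (G : Type) [Group G], FPType G → FFType G) ↔
      ∀ (Γ : Type) [Group Γ] (n : ℕ), TrinomialSyzygiesSF Γ n) := by
  have key : ∀ (Γ : Type) [Group Γ] (n : ℕ), (FPType Γ → FFType Γ) → TrinomialSyzygiesSF Γ n := by
    intro Γ _ n h p q r A a b hA ⟨e⟩ hp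
    have hp' : Module.Projective (MonoidAlgebra ℤ Γ) (Im A) := Module.Projective.of_equiv e
    exact SF.equiv e.symm ((FFType_iff A hA hp').1 (h (FPType_of_Bd A hA hp')))
  refine ⟨fun n G _ hG => ?_, fun n => ⟨fun h Γ _ => ?_, fun h G _ hG => ?_⟩,
    fun h Γ _ n => ?_, fun h G _ hG => ?_⟩
  · obtain ⟨m, p, q, r, A, a, b, h1, ⟨e⟩, h3, h4⟩ := main hG
    refine ⟨m, p, q, r, A, a, b, h1, ⟨e⟩, h3, ?_⟩
    have h5 : Module.Projective (RR G (Fin m)) (Im A) := Module.Projective.of_equiv e
    have h6 : FFType (GF G (Fin m)) ↔ SF (RR G (Fin m)) (triIdeal a b) :=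
      (FFType_iff A h1 h5).trans ⟨SF.equiv e.symm, SF.equiv e⟩
    obtain ⟨m₀, k₀, B, hB, hB'⟩ := Bd_of_FPLen hG
    tfae_have 1 ↔ 4 := h4
    tfae_have 3 ↔ 4 := h6
    tfae_have 2 → 1 := FFType_of_FFle
    tfae_have 1 → 2 := fun h => FFle_of_SF B hB ((FFType_iff B hB hB').1 h)
    tfae_finish
  · intro p q r A a b hA ⟨e⟩ hp
    have hp' : Module.Projective (MonoidAlgebra ℤ Γ) (Im A) := Module.Projective.of_equiv e
    exact SF.equiv e.symm ((FFType_iff A hA hp').1 (h Γ (FPLen_of_Bd A hA hp')))
  · obtain ⟨m, p, q, r, A, a, b, h1, e, h3, h4⟩ := main hG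
    exact h4.2 (h (GF G (Fin m)) p q r A a b h1 e h3)
  · exact key Γ n (h Γ)
  · obtain ⟨n, hn⟩ := FPType_iff.1 hG
    obtain ⟨m, p, q, r, A, a, b, h1, e, h3, h4⟩ := main (n := n) (FPLen_mono (by omega) hn)
    exact h4.2 (h (GF G (Fin m)) (n + 2) p q r A a b h1 e h3)

end Pool.Agent.Results.MP_d19827_al.TrinomialSyzygies
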